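import Mathlib

/-!
# Cubed sums of `T_k(18,49)` and `T_k(10,49)`: all four congruences fail at `p = 7`

For `p = 7` (which is `3` modulo `4` and `7` modulo `8`) the sums `A_1, A_2, B_1, B_2` are all congruent to `7`, not
to `0`, modulo `49`. So both statements of the problem, for every prime `p > 3`, are false as printed.
-/

open Finset

namespace Pool.Agent.Results.MP_f96d9d_nt.AllFourFailAtSeven

/-- The generalized central trinomial coefficient `T_n(b,c)`. -/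
def T (n : ℕ) (b c : ℤ) : ℤ :=
  ∑ j ∈ range (n / 2 + 1), (n.choose (2 * j) : ℤ) * ((2 * j).choose j : ℤ) * c ^ j * b ^ (n - 2 * j)

/-- The sum of `T_k(b,c)^3 / m^k` over `0 ≤ k ≤ p - 1`. -/
def S (b c m : ℤ) (p : ℕ) : ℚ := ∑ k ∈ range p, (T k b c : ℚ) ^ 3 / (m : ℚ) ^ k

/-- `A_1(p)` -/
def A1 (p : ℕ) : ℚ := S 18 49 512 p
/-- `A_2(p)` -/
def A2 (p : ℕ) : ℚ := S 18 49 4096 p
/-- `B_1(p)` -/
def B1 (p : ℕ) : ℚ := S 10 49 (-512) p
/-- `B_2(p)` -/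
def B2 (p : ℕ) : ℚ := S 10 49 1728 p

/-- Congruence of rational numbers modulo `p^m`: the difference is `p^m` times a rational number
whose denominator is prime to `p`. -/
def Congr (p m : ℕ) (a b : ℚ) : Prop := ∃ c : ℚ, ¬ p ∣ c.den ∧ a - b = (p : ℚ) ^ m * c

/-- The statement of Q1 for the prime `p`. -/
def Q1At (p : ℕ) [Fact p.Prime] : Prop :=
  Congr p 2 ((legendreSym p 2 : ℚ) * A1 p) (A2 p) ∧
  (∀ x y : ℤ, p % 4 = 1 → (p : ℤ) = x ^ 2 + y ^ 2 → Odd x → Even y → Congr p 2 (A2 p) (4 * (x : ℚ) ^ 2 - 2 * p)) ∧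
  (p % 4 = 3 → Congr p 2 (A2 p) 0)

/-- The statement of Q2 for the prime `p`. -/
def Q2At (p : ℕ) [Fact p.Prime] : Prop :=
  Congr p 2 ((legendreSym p (-1) : ℚ) * B1 p) ((legendreSym p 6 : ℚ) * B2 p) ∧
  (∀ x y : ℤ, p % 8 = 1 ∨ p % 8 = 3 → (p : ℤ) = x ^ 2 + 2 * y ^ 2 →
    Congr p 2 ((legendreSym p 6 : ℚ) * B2 p) (4 * (x : ℚ) ^ 2 - 2 * p)) ∧
  (p % 8 = 5 ∨ p % 8 = 7 → Congr p 2 ((legendreSym p 6 : ℚ) * B2 p) 0)

theorem not_congr (p m : ℕ) (hp : p.Prime) (a b : ℚ) (D N : ℤ) (h : (D : ℚ) * (a - b) = N)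
    (hN : ¬ (p : ℤ) ^ m ∣ N) : ¬ Congr p m a b := by
  rintro ⟨c, hc, hab⟩
  apply hN
  rw [hab] at h
  have hc0 : (c.den : ℚ) ≠ 0 := by exact_mod_cast c.den_nz
  have h1 : (N : ℚ) * c.den = (D : ℚ) * (p : ℚ) ^ m * c.num := by
    rw [← h]
    have h2 : c * c.den = c.num := Rat.mul_den_eq_num c
    calc (D : ℚ) * ((p : ℚ) ^ m * c) * c.den = (D : ℚ) * (p : ℚ) ^ m * (c * c.den) := by ring
      _ = _ := by rw [h2]
  have h3 : N * (c.den : ℤ) = D * (p : ℤ) ^ m * c.num := by exact_mod_cast h1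
  have h4 : (p : ℤ) ^ m ∣ N * (c.den : ℤ) := by
    rw [h3]; exact ⟨D * c.num, by ring⟩
  have h5 : IsCoprime ((p : ℤ) ^ m) (c.den : ℤ) := by
    apply IsCoprime.pow_left
    rw [Nat.isCoprime_iff_coprime]
    exact (hp.coprime_iff_not_dvd).2 hc
  exact h5.dvd_of_dvd_mul_right h4

/-- A test for `Congr 7 2 a b`. -/
theorem congr_seven {a b : ℚ} (D N : ℤ) (hD : ¬ (7 : ℤ) ∣ D) (h : (D : ℚ) * (a - b) = 49 * N) : Congr 7 2 a b := by
  have hD0 : D ≠ 0 := by rintro rfl; simp at hD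
  refine ⟨(N : ℚ) / D, ?_, ?_⟩
  · intro hd
    have h1 : (((N : ℚ) / D).den : ℤ) ∣ D := by
      rw [← Rat.divInt_eq_div]
      exact Rat.den_dvd N D
    exact hD (dvd_trans (by exact_mod_cast hd) h1)
  · have hD' : (D : ℚ) ≠ 0 := by exact_mod_cast hD0
    field_simp
    push_cast
    linarith

instance : Fact (Nat.Prime 7) := ⟨by norm_num⟩

theorem T_eval (b : ℤ) : T 0 b 49 = 1 ∧ T 1 b 49 = b ∧ T 2 b 49 = b ^ 2 + 98 ∧ T 3 b 49 = b ^ 3 + 294 * b ∧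
    T 4 b 49 = b ^ 4 + 588 * b ^ 2 + 14406 ∧ T 5 b 49 = b ^ 5 + 980 * b ^ 3 + 72030 * b ∧
    T 6 b 49 = b ^ 6 + 1470 * b ^ 4 + 216090 * b ^ 2 + 2352980 := by
  refine ⟨?_, ?_, ?_, ?_, ?_, ?_, ?_⟩ <;> simp [T, sum_range_succ, Nat.choose]

theorem S_eval (b m : ℤ) : S b 49 m 7 = 1 + (b : ℚ) ^ 3 / m + ((b : ℚ) ^ 2 + 98) ^ 3 / (m : ℚ) ^ 2 +
    ((b : ℚ) ^ 3 + 294 * b) ^ 3 / (m : ℚ) ^ 3 + ((b : ℚ) ^ 4 + 588 * b ^ 2 + 14406) ^ 3 / (m : ℚ) ^ 4 +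
    ((b : ℚ) ^ 5 + 980 * b ^ 3 + 72030 * b) ^ 3 / (m : ℚ) ^ 5 +
    ((b : ℚ) ^ 6 + 1470 * b ^ 4 + 216090 * b ^ 2 + 2352980) ^ 3 / (m : ℚ) ^ 6 := by
  obtain ⟨h0, h1, h2, h3, h4, h5, h6⟩ := T_eval b
  simp only [S, sum_range_succ, sum_range_zero, h0, h1, h2, h3, h4, h5, h6]
  push_cast
  simp

theorem leg2 : legendreSym 7 2 = 1 := by
  rw [legendreSym.eq_one_iff 7 (by decide)]
  exact ⟨3, by decide⟩

theorem legm1 : legendreSym 7 (-1) = -1 := by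
  rw [legendreSym.eq_neg_one_iff]
  rintro ⟨r, hr⟩
  revert r
  decide

theorem leg6 : legendreSym 7 6 = -1 := by
  rw [legendreSym.eq_neg_one_iff]
  rintro ⟨r, hr⟩
  revert r
  decide

/-- **All four sums are `7` and not `0` modulo `49` for `p = 7`: both statements, for all primes `p > 3`, fail.** -/
theorem result :
    (Congr 7 2 (A1 7) 7 ∧ Congr 7 2 (A2 7) 7 ∧ Congr 7 2 (B1 7) 7 ∧ Congr 7 2 (B2 7) 7) ∧
    (¬ Congr 7 2 ((legendreSym 7 2 : ℚ) * A1 7) 0 ∧ ¬ Congr 7 2 (A2 7) 0 ∧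
      ¬ Congr 7 2 ((legendreSym 7 (-1) : ℚ) * B1 7) 0 ∧ ¬ Congr 7 2 ((legendreSym 7 6 : ℚ) * B2 7) 0) ∧
    (¬ ∀ (p : ℕ) [Fact p.Prime], 3 < p → Q1At p) ∧ (¬ ∀ (p : ℕ) [Fact p.Prime], 3 < p → Q2At p) := by
  have hA2 : ¬ Congr 7 2 (A2 7) 0 := by
    apply not_congr 7 2 (by norm_num) _ _ (4096 ^ 6) 21232405354957642090750400
    · rw [A2, S_eval]; norm_num
    · norm_num
  have hB2 : ¬ Congr 7 2 ((legendreSym 7 6 : ℚ) * B2 7) 0 := by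
    apply not_congr 7 2 (by norm_num) _ _ (1728 ^ 6) (-74620831099090240843200)
    · rw [B2, S_eval, leg6]; norm_num
    · norm_num
  refine ⟨⟨?_, ?_, ?_, ?_⟩, ⟨?_, hA2, ?_, hB2⟩, ?_, ?_⟩
  · apply congr_seven (512 ^ 6) ((18086046881857534456275392 - 7 * 512 ^ 6) / 49) (by norm_num)
    rw [A1, S_eval]; norm_num
  · apply congr_seven (4096 ^ 6) ((21232405354957642090750400 - 7 * 4096 ^ 6) / 49) (by norm_num)
    rw [A2, S_eval]; norm_num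
  · apply congr_seven ((-512) ^ 6) ((59547015497038686232000 - 7 * 512 ^ 6) / 49) (by norm_num)
    rw [B1, S_eval]; norm_num
  · apply congr_seven (1728 ^ 6) ((74620831099090240843200 - 7 * 1728 ^ 6) / 49) (by norm_num)
    rw [B2, S_eval]; norm_num
  · apply not_congr 7 2 (by norm_num) _ _ (512 ^ 6) 18086046881857534456275392
    · rw [A1, S_eval, leg2]; norm_num
    · norm_num
  · apply not_congr 7 2 (by norm_num) _ _ ((-512) ^ 6) (-59547015497038686232000)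
    · rw [B1, S_eval, legm1]; norm_num
    · norm_num
  · intro h
    exact hA2 ((h 7 (by norm_num)).2.2 (by norm_num))
  · intro h
    exact hB2 ((h 7 (by norm_num)).2.2 (by norm_num))

end Pool.Agent.Results.MP_f96d9d_nt.AllFourFailAtSeven
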